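import Pool.Agent.L5helper98.GEF.Hole
import Pool.Agent.L5helper98.GEF.Cap
import Pool.Agent.L5helper98.GEF.Exist

/-!
# The capacity formula for the hole probability of the Gaussian entire function is false

For the flat rectangle `K = [-1,1] × [-η,η]`, the hole probability of the Gaussian entire function
in `r K` is at least `exp (-65 η² r⁴)` for all large `r`, although the logarithmic capacity of `K`
is at least `e⁻¹` for every `η`.  Hence the conjectured formula
`lim r⁻⁴ p_{H,K}(f; r) = (e²/4) c(K)⁴` fails for every `η ≤ 1/50`, and no lower bound of the hole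
exponent by a positive function of the capacity holds.
-/

set_option autoImplicit false
open MeasureTheory ProbabilityTheory Filter Topology Set
open Pool.Agent.L5helper98.GEF

namespace Pool.Agent.Results.MP_629fb1_pr.CapacityFormulaFails

theorem result :
    (∃ (Ω : Type) (_ : MeasurableSpace Ω) (P : Measure Ω) (ξ : ℕ → Ω → ℂ), IsGaussSeq P ξ) ∧
    ∀ η : ℝ, 0 < η → η ≤ 1 →
      IsCompact (rect η) ∧ IsConnected (rect η) ∧ (interior (rect η)).Nonempty ∧
      1 / 30 < Real.exp 2 / 4 * logCap (rect η) ^ 4 ∧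
      ∀ (Ω : Type) (_ : MeasurableSpace Ω) (P : Measure Ω) (ξ : ℕ → Ω → ℂ), IsGaussSeq P ξ →
        (∀ r : ℝ, 577 / η ^ 2 ≤ r →
          Real.exp (-(65 * η ^ 2 * r ^ 4)) ≤ P.real (hole ξ (rect η) r)) ∧
        (η ≤ 1 / 50 →
          ¬ Tendsto (fun r : ℝ => holeExp P ξ (rect η) r / r ^ 4) atTop
            (𝓝 (Real.exp 2 / 4 * logCap (rect η) ^ 4))) := by
  refine ⟨exists_isGaussSeq, ?_⟩
  intro η hη0 hη1
  have hcap : 1 / 30 < Real.exp 2 / 4 * logCap (rect η) ^ 4 := by
    have h1 := logCap_rect hη0 hη1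
    have h2 : Real.exp (-1) ^ 4 ≤ logCap (rect η) ^ 4 :=
      pow_le_pow_left₀ (Real.exp_pos _).le h1 4
    have h3 : Real.exp 2 / 4 * Real.exp (-1) ^ 4 = 1 / (4 * Real.exp 1 ^ 2) := by
      have e2 : Real.exp 2 = Real.exp 1 ^ 2 := by
        rw [← Real.exp_nat_mul]; norm_num
      have hne : Real.exp 1 ≠ 0 := (Real.exp_pos 1).ne'
      rw [Real.exp_neg, e2]
      field_simp
    have h4 : Real.exp 1 < 2.7182818286 := Real.exp_one_lt_d9
    have h5 : (0 : ℝ) < Real.exp 1 := Real.exp_pos _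
    have h6 : 1 / 30 < 1 / (4 * Real.exp 1 ^ 2) := by
      apply one_div_lt_one_div_of_lt (by positivity)
      nlinarith
    calc 1 / 30 < 1 / (4 * Real.exp 1 ^ 2) := h6
      _ = Real.exp 2 / 4 * Real.exp (-1) ^ 4 := h3.symm
      _ ≤ _ := mul_le_mul_of_nonneg_left h2 (by positivity)
  refine ⟨rect_isCompact η, rect_isConnected hη0.le, rect_interior hη0, hcap, ?_⟩
  intro Ω mΩ P ξ h
  refine ⟨fun r hr => hole_lower h hη0 hη1 hr, ?_⟩
  intro hη50 hlim
  have hη2 : 0 < η ^ 2 := by positivity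
  have hev : ∀ᶠ r : ℝ in atTop, holeExp P ξ (rect η) r / r ^ 4 ≤ 65 * η ^ 2 := by
    filter_upwards [eventually_ge_atTop (577 / η ^ 2)] with r hr
    have hr0 : 0 < r := lt_of_lt_of_le (by positivity) hr
    have h1 := hole_lower h hη0 hη1 hr
    have h2 : 0 < P.real (hole ξ (rect η) r) := lt_of_lt_of_le (Real.exp_pos _) h1
    have h3 : -(65 * η ^ 2 * r ^ 4) ≤ Real.log (P.real (hole ξ (rect η) r)) :=
      (Real.le_log_iff_exp_le h2).2 h1
    rw [div_le_iff₀ (by positivity), holeExp]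
    linarith
  have h1 : Real.exp 2 / 4 * logCap (rect η) ^ 4 ≤ 65 * η ^ 2 := le_of_tendsto hlim hev
  have h2 : 65 * η ^ 2 ≤ 65 * (1 / 50) ^ 2 := by
    have : η ^ 2 ≤ (1 / 50) ^ 2 := pow_le_pow_left₀ hη0.le hη50 2
    linarith
  norm_num at h2
  linarith

end Pool.Agent.Results.MP_629fb1_pr.CapacityFormulaFails
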